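import Pool.Agent.Y214.DBM.TwoPoints
import Pool.Agent.Y214.DBM.Dense

/-!
# The dynamical Brauer–Manin equality for linear automorphisms of `P^N` over a number field

Let `K` be any number field and `Y ≠ P^N` any closed subvariety of `P^N` over `K` with at least two
`K`-rational points. There are a linear automorphism `f` of `P^N` over `K` and a point
`P ∈ P^N(K)` such that no point of the forward orbit of `P` lies on `Y`, while the adelic closure of
the orbit contains an adelic point of `Y`. So the equality
`C(Y ∩ O_f(P)) = Y(𝔸_K) ∩ C(O_f(P))` fails for every such `Y`.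

Let `[a], [b]` be rational points of `Y`. If the line through them is not contained in `Y`, then,
after scaling `b`, the orbit is `[a + (n + 1) b]`, `n ≥ 0`. If all lines through two rational points
of `Y` are contained in `Y`, the orbit is `[a + (n + 1) u + (n + 1)² b]` with `[u]` not on `Y`.
Along `n = k! - 1` these points tend to `[b]` at every infinite place and to `[a]` at every finite
place.

For `N ≥ 2` and a hyperplane `Y` the orbit can even be Zariski dense: the points
`(1 : n : ℓ_2^n : … : ℓ_N^n)` with `ℓ_2 < … < ℓ_N` prime numbers and `Y` the hyperplane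
`x_0 + x_1 = 0`.
-/

set_option autoImplicit false

namespace Pool.Agent.Results.MP_80da57_nt.TwoRationalPoints

open Pool.Agent.Y214.DBM

theorem result (K : Type*) [Field K] [NumberField K] (N : ℕ) :
    (∀ Y : Set (MvPolynomial (Fin (N + 1)) K), (∀ G ∈ Y, ∃ e, G.IsHomogeneous e) →
      (points Y K).Nontrivial → points Y K ≠ Set.univ →
      ∃ (g : (Fin (N + 1) → K) ≃ₗ[K] (Fin (N + 1) → K)) (P : PN N K),
        points Y K ∩ orbit g P = ∅ ∧
        (adelicPoints Y ∩ adelicClosure (orbit g P)).Nonempty ∧
        adelicClosure (points Y K ∩ orbit g P) ≠ adelicPoints Y ∩ adelicClosure (orbit g P)) ∧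
    (2 ≤ N → ∃ (g : (Fin (N + 1) → K) ≃ₗ[K] (Fin (N + 1) → K)) (P : PN N K)
      (G : MvPolynomial (Fin (N + 1)) K), G.IsHomogeneous 1 ∧ G ≠ 0 ∧
        ZariskiDense (orbit g P) ∧
        points {G} K ∩ orbit g P = ∅ ∧
        (adelicPoints {G} ∩ adelicClosure (orbit g P)).Nonempty ∧
        adelicClosure (points {G} K ∩ orbit g P) ≠
          adelicPoints {G} ∩ adelicClosure (orbit g P)) :=
  ⟨fun Y hY h2 hne => two_points Y hY h2 hne, fun hN => hyperplane N hN K⟩

end Pool.Agent.Results.MP_80da57_nt.TwoRationalPoints
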